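import Pool.Agent.Helper40_Dio.Stmt

/-! # DIO (MP_9ca527_nt): module INI (the auxiliary function). -/

set_option autoImplicit false

namespace Pool.Agent.DIO.H67

open Real Pool.Agent.DIO

variable {S : Type} [CommRing S] {O : Ord4 S}

theorem abs_gam (L : ℕ) (b : ℤ) (B : ℝ) (hB : 1 ≤ B) (hb : |(b : ℝ)| ≤ B) (x y : ℕ)
    (hx : x ≤ L) (hy : y ≤ L) :
    |((((x : ℤ) - b * (y : ℤ) : ℤ)) : ℝ)| ≤ 2 * L * B := by
  have hL : (0 : ℝ) ≤ L := Nat.cast_nonneg _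
  have hx' : (x : ℝ) ≤ L := by exact_mod_cast hx
  have hy' : (y : ℝ) ≤ L := by exact_mod_cast hy
  have hx0 : (0 : ℝ) ≤ x := Nat.cast_nonneg _
  have hy0 : (0 : ℝ) ≤ y := Nat.cast_nonneg _
  push_cast
  calc |(x : ℝ) - b * y| ≤ |(x : ℝ)| + |(b : ℝ) * y| := abs_sub _ _
    _ = x + |(b : ℝ)| * y := by rw [abs_mul, abs_of_nonneg hx0, abs_of_nonneg hy0]
    _ ≤ L + B * L := by
        have : |(b : ℝ)| * y ≤ B * L := mul_le_mul hb hy' hy0 (by linarith)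
        linarith
    _ ≤ 2 * L * B := by nlinarith

theorem abs_gam1 (d : BData O) {L : ℕ} (x : Idx L) : |((gam1 d x : ℤ) : ℝ)| ≤ 2 * L * d.B := by
  unfold gam1
  exact abs_gam L d.b1 d.B d.hB d.hb1 _ _ (Nat.lt_succ_iff.mp x.1.2) (Nat.lt_succ_iff.mp x.2.2.2)

theorem abs_gam2 (d : BData O) {L : ℕ} (x : Idx L) : |((gam2 d x : ℤ) : ℝ)| ≤ 2 * L * d.B := by
  unfold gam2
  exact abs_gam L d.b2 d.B d.hB d.hb2 _ _ (Nat.lt_succ_iff.mp x.2.1.2)
    (Nat.lt_succ_iff.mp x.2.2.2)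

theorem one_le_2LB (d : BData O) {L : ℕ} (hL : 1 ≤ L) : (1 : ℝ) ≤ 2 * L * d.B := by
  have hL' : (1 : ℝ) ≤ L := by exact_mod_cast hL
  nlinarith [d.hB]

theorem pow_le_exp {a Q : ℝ} (ha : |a| ≤ exp Q) (n : ℕ) : |a| ^ n ≤ exp (Q * n) := by
  calc |a| ^ n ≤ (exp Q) ^ n := pow_le_pow_left₀ (abs_nonneg _) ha n
    _ = exp (Q * n) := by rw [← Real.exp_nat_mul]; ring_nf

theorem abs_term (d : BData O) (L : ℕ) (x : Idx L) (l : ℕ) (j : Fin 4) :
    |O.σ j (term d L x l)| ≤ exp (3 * d.Q * L * l) := by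
  have hx1 : ((x.1 : ℕ) : ℝ) ≤ L := by exact_mod_cast Nat.lt_succ_iff.mp x.1.2
  have hx2 : ((x.2.1 : ℕ) : ℝ) ≤ L := by exact_mod_cast Nat.lt_succ_iff.mp x.2.1.2
  have hx3 : (x.2.2 : ℕ) ≤ L := Nat.lt_succ_iff.mp x.2.2.2
  have hQ : 0 ≤ d.Q := by linarith [d.hQ]
  have hl : (0 : ℝ) ≤ l := Nat.cast_nonneg _
  have hDj : |O.σ j (d.D : S)| ≤ exp d.Q := by
    rw [map_natCast, abs_of_nonneg (Nat.cast_nonneg _)]; exact d.cD
  unfold term
  rw [map_mul, map_mul, map_mul, map_pow, map_pow, map_pow, map_pow, abs_mul, abs_mul, abs_mul,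
    abs_pow, abs_pow, abs_pow, abs_pow]
  calc |O.σ j d.α1| ^ ((x.1 : ℕ) * l) * |O.σ j d.α2| ^ ((x.2.1 : ℕ) * l) *
        |O.σ j d.η| ^ ((x.2.2 : ℕ) * l) * |O.σ j (d.D : S)| ^ ((L - (x.2.2 : ℕ)) * l)
      ≤ exp (d.Q * ((x.1 : ℕ) * l : ℕ)) * exp (d.Q * ((x.2.1 : ℕ) * l : ℕ)) *
        exp (d.Q * ((x.2.2 : ℕ) * l : ℕ)) * exp (d.Q * ((L - (x.2.2 : ℕ)) * l : ℕ)) := by
        gcongr
        · exact pow_le_exp (d.c1 j) _
        · exact pow_le_exp (d.c2 j) _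
        · exact pow_le_exp (d.c3 j) _
        · exact pow_le_exp hDj _
    _ = exp (d.Q * ((x.1 : ℕ) + (x.2.1 : ℕ) + L) * l) := by
        rw [← Real.exp_add, ← Real.exp_add, ← Real.exp_add]
        congr 1
        push_cast [Nat.cast_sub hx3]
        ring
    _ ≤ exp (3 * d.Q * L * l) := by
        apply Real.exp_le_exp.mpr
        have : d.Q * (((x.1 : ℕ) : ℝ) + ((x.2.1 : ℕ) : ℝ) + L) ≤ d.Q * (3 * L) :=
          mul_le_mul_of_nonneg_left (by linarith) hQ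
        calc d.Q * (((x.1 : ℕ) : ℝ) + ((x.2.1 : ℕ) : ℝ) + L) * l ≤ d.Q * (3 * L) * l :=
              mul_le_mul_of_nonneg_right this hl
          _ = 3 * d.Q * L * l := by ring

theorem abs_coef (d : BData O) {L : ℕ} (hL : 1 ≤ L) (x : Idx L) (m1 m2 k : ℕ) (h1 : m1 ≤ k)
    (h2 : m2 ≤ k) :
    |(((gam1 d x ^ m1 * gam2 d x ^ m2 : ℤ)) : ℝ)| ≤ (2 * L * d.B) ^ (2 * k) := by
  have h1B := one_le_2LB d hL
  push_cast
  rw [abs_mul, abs_pow, abs_pow]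
  calc |((gam1 d x : ℤ) : ℝ)| ^ m1 * |((gam2 d x : ℤ) : ℝ)| ^ m2
      ≤ (2 * L * d.B) ^ m1 * (2 * L * d.B) ^ m2 := by
        gcongr
        · exact abs_gam1 d x
        · exact abs_gam2 d x
    _ = (2 * L * d.B) ^ (m1 + m2) := by rw [pow_add]
    _ ≤ (2 * L * d.B) ^ (2 * k) := pow_le_pow_right₀ h1B (by omega)

theorem ini (hSIE : SieStatement) : IniStatement := by
  intro S _ O d L k h hL hh hcard
  have h1B := one_le_2LB d hL
  have hQ : 0 ≤ d.Q := by linarith [d.hQ]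
  have hL0 : (0 : ℝ) ≤ L := Nat.cast_nonneg _
  have hh0 : (0 : ℝ) ≤ h := Nat.cast_nonneg _
  set H : ℝ := (2 * L * d.B) ^ (2 * k) * exp (3 * d.Q * L * h) with hH
  have hH1 : 1 ≤ H := by
    have e1 : (1 : ℝ) ≤ (2 * L * d.B) ^ (2 * k) := one_le_pow₀ h1B
    have e2 : (1 : ℝ) ≤ exp (3 * d.Q * L * h) := Real.one_le_exp (by positivity)
    rw [hH]
    exact one_le_mul_of_one_le_of_one_le e1 e2
  obtain ⟨p, hp0, hpH, hp⟩ := hSIE S O (Idx L) (Fin (k + 1) × Fin (k + 1) × Fin h)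
    (fun κ x => ((gam1 d x ^ (κ.1 : ℕ) * gam2 d x ^ (κ.2.1 : ℕ) : ℤ) : S) *
      term d L x ((κ.2.2 : ℕ) + 1)) H hH1
    (by
      intro κ x j
      rw [map_mul, map_intCast, abs_mul, hH]
      have hl : ((((κ.2.2 : ℕ) + 1 : ℕ)) : ℝ) ≤ h := by exact_mod_cast κ.2.2.2
      gcongr
      · exact abs_coef d hL x _ _ k (Nat.lt_succ_iff.mp κ.1.2) (Nat.lt_succ_iff.mp κ.2.1.2)
      · refine (abs_term d L x _ j).trans (Real.exp_le_exp.mpr ?_)
        exact mul_le_mul_of_nonneg_left hl (by positivity))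
    (by
      simp only [Fintype.card_prod, Fintype.card_fin]
      calc 8 * ((k + 1) * ((k + 1) * h)) = 8 * ((k + 1) ^ 2 * h) := by ring
        _ ≤ (L + 1) ^ 3 := hcard
        _ = (L + 1) * ((L + 1) * (L + 1)) := by ring)
    (by
      simp only [Fintype.card_prod, Fintype.card_fin]
      positivity)
  refine ⟨p, hp0, ?_, ?_⟩
  · intro x
    refine (hpH x).trans (le_of_eq ?_)
    unfold siz0
    have hL1 : (0 : ℝ) < (L : ℝ) + 1 := by linarith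
    rw [Real.exp_add, Real.exp_add, Real.exp_log (by positivity)]
    have e3 : exp (2 * (k : ℝ) * log (2 * L * d.B)) = (2 * L * d.B) ^ (2 * k) := by
      rw [← Real.rpow_natCast, Real.rpow_def_of_pos (by linarith)]
      congr 1
      push_cast
      ring
    rw [e3, hH]
    simp only [Fintype.card_prod, Fintype.card_fin]
    push_cast
    ring
  · intro m1 m2 l h1 h2 hl1 hl2
    have := hp (⟨m1, by omega⟩, ⟨m2, by omega⟩, ⟨l - 1, by omega⟩)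
    simp only at this
    rw [Nat.sub_add_cancel hl1] at this
    rw [← this]
    refine Finset.sum_congr rfl fun x _ => ?_
    push_cast
    ring

end Pool.Agent.DIO.H67
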