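import Pool.Agent.Helper40_Dio.FStmt

/-! # DIO part F, module QTT: the type `t` does not occur for large `c`. -/

set_option autoImplicit false

namespace Pool.Agent.DIO.H67

open Real Filter Asymptotics

/-- The threshold: `Y ^ 5000 < c` for large `c`. -/
theorem thresh (C : ℝ) : ∃ C1 : ℕ, ∀ c : ℕ, C1 < c →
    (max 100 ⌈C * (log c) ^ 61⌉₊) ^ 5000 < c := by
  have h1 : (fun x : ℝ => log x ^ (61 : ℝ)) =o[atTop] fun x : ℝ => x ^ ((1 : ℝ) / 5000) :=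
    isLittleO_log_rpow_rpow_atTop 61 (by norm_num)
  have h2 : (fun x : ℝ => C * log x ^ (61 : ℝ)) =o[atTop] fun x : ℝ => x ^ ((1 : ℝ) / 5000) :=
    h1.const_mul_left C
  have h3 : Tendsto (fun x : ℝ => x ^ ((1 : ℝ) / 5000)) atTop atTop :=
    tendsto_rpow_atTop (by norm_num)
  have h4 := h2.bound (show (0 : ℝ) < 1 / 2 by norm_num)
  have h5 := h3.eventually_gt_atTop 204
  obtain ⟨A, hA⟩ := eventually_atTop.1 (h4.and (h5.and (eventually_gt_atTop (1 : ℝ))))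
  obtain ⟨C1, hC1⟩ := exists_nat_ge A
  refine ⟨C1, fun c hc => ?_⟩
  have hcA : A ≤ (c : ℝ) := hC1.trans (by exact_mod_cast hc.le)
  obtain ⟨g1, g2, g3⟩ := hA c hcA
  have hlog : 0 < log (c : ℝ) := log_pos g3
  have e61 : log (c : ℝ) ^ (61 : ℝ) = log (c : ℝ) ^ 61 := by
    rw [show (61 : ℝ) = ((61 : ℕ) : ℝ) by norm_num, rpow_natCast]
  rw [e61] at g1
  have hpos : (0 : ℝ) < (c : ℝ) ^ ((1 : ℝ) / 5000) := rpow_pos_of_pos (by linarith) _
  have g4 : C * log (c : ℝ) ^ 61 ≤ 1 / 2 * (c : ℝ) ^ ((1 : ℝ) / 5000) := by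
    refine (le_abs_self _).trans ?_
    rw [← Real.norm_eq_abs]
    refine g1.trans ?_
    rw [Real.norm_eq_abs, abs_of_pos hpos]
  have g5 : ((⌈C * (log c) ^ 61⌉₊ : ℕ) : ℝ) < (c : ℝ) ^ ((1 : ℝ) / 5000) := by
    rcases le_or_gt 0 (C * (log (c : ℝ)) ^ 61) with h | h
    · have := Nat.ceil_lt_add_one h
      linarith
    · rw [Nat.ceil_eq_zero.2 h.le]
      simpa using hpos
  have g6 : ((max 100 ⌈C * (log c) ^ 61⌉₊ : ℕ) : ℝ) < (c : ℝ) ^ ((1 : ℝ) / 5000) := by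
    rw [Nat.cast_max]
    refine max_lt ?_ g5
    push_cast
    linarith
  have g7 : ((max 100 ⌈C * (log c) ^ 61⌉₊ : ℕ) : ℝ) ^ 5000 < (c : ℝ) := by
    calc ((max 100 ⌈C * (log c) ^ 61⌉₊ : ℕ) : ℝ) ^ 5000
        < ((c : ℝ) ^ ((1 : ℝ) / 5000)) ^ 5000 :=
          pow_lt_pow_left₀ g6 (Nat.cast_nonneg _) (by norm_num)
      _ = (c : ℝ) := by
          rw [← rpow_natCast, ← rpow_mul (by linarith)]
          norm_num
  exact_mod_cast g7

theorem qtt (hAPX : ApxStatement) (hMCT : MctStatement) (hPT1 : Pt1Statement)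
    (hPT3 : Pt3Statement) : QttStatement := by
  obtain ⟨C, hC, H⟩ := hAPX
  obtain ⟨C1, hC1⟩ := thresh C
  refine ⟨C1, fun a b c d r s t g u v w x y z ε μ ν hc hX hN hT => ?_⟩
  obtain ⟨hμ, hν⟩ := (H a b c d r s t g u v w x y z hX hN).2.2 ε μ ν hT
  have hdvd := hMCT a b c r s t g u v w x y z ε μ ν hN hT
  have hY := hC1 c hc
  set Y : ℕ := max 100 ⌈C * (log c) ^ 61⌉₊ with hYdef
  have hY100 : 100 ≤ Y := le_max_left _ _
  have hle : C * (log (c : ℝ)) ^ 61 ≤ (Y : ℝ) :=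
    (Nat.le_ceil _).trans (by exact_mod_cast le_max_right _ _)
  have hμY : μ ≤ Y := by exact_mod_cast hμ.trans hle
  have hνY : ν ≤ Y := by exact_mod_cast hν.trans hle
  have hab : a < b := hX.hab
  obtain ⟨hε, hμ1, -, -⟩ := hT
  by_cases h : a * g ≤ Y ^ 420 ∨ a * b ≤ Y ^ 420
  · have := hPT1 a b c r s t g u v w ε μ ν Y hab hN hε hμ1 hY100 hμY hνY hdvd h
    omega
  · rw [not_or, not_le, not_le] at h
    exact hPT3 a b c r s t g u v w ε μ ν Y hab hN hε hY100 hμY hνY hdvd h.1 h.2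

end Pool.Agent.DIO.H67
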