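import Pool.Agent.Helper40_Dio.Stmt

/-! # DIO (MP_9ca527_nt): module ALE (exponential sum with many approximate zeros). -/

set_option autoImplicit false

namespace Pool.Agent.DIO.H67

open Real Pool.Agent.DIO

section

variable {ι : Type} [Fintype ι] (c w : ι → ℝ)

/-- the `n`-th derivative of the exponential sum minus a polynomial -/
noncomputable def Fn (P : Polynomial ℝ) (n : ℕ) (y : ℝ) : ℝ :=
  (∑ i, c i * w i ^ n * exp (y * w i)) - (Polynomial.derivative^[n] P).eval y

theorem hasDerivAt_Fn (P : Polynomial ℝ) (n : ℕ) (y : ℝ) :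
    HasDerivAt (Fn c w P n) (Fn c w P (n + 1) y) y := by
  unfold Fn
  refine HasDerivAt.sub ?_ ?_
  · refine HasDerivAt.fun_sum fun i _ => ?_
    have h1 : HasDerivAt (fun y : ℝ => y * w i) (w i) y := by
      simpa using (hasDerivAt_id y).mul_const (w i)
    have h2 := (h1.exp).const_mul (c i * w i ^ n)
    have e : c i * w i ^ n * (exp (y * w i) * w i) = c i * w i ^ (n + 1) * exp (y * w i) := by
      ring
    rw [e] at h2
    exact h2
  · rw [Function.iterate_succ_apply']
    exact (Polynomial.derivative^[n] P).hasDerivAt y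

theorem iteratedDeriv_Fn (P : Polynomial ℝ) (n : ℕ) :
    iteratedDeriv n (Fn c w P 0) = Fn c w P n := by
  induction n with
  | zero => exact iteratedDeriv_zero
  | succ n ih =>
    rw [iteratedDeriv_succ, ih]
    funext y
    exact (hasDerivAt_Fn c w P n y).deriv

theorem contDiff_Fn (P : Polynomial ℝ) (m : ℕ) : ContDiff ℝ m (Fn c w P 0) := by
  unfold Fn
  refine ContDiff.sub ?_ ?_
  · exact ContDiff.sum fun i _ => contDiff_const.mul
      ((contDiff_id.mul contDiff_const).exp)
  · exact (P.contDiff_aeval (m : WithTop ℕ∞) : ContDiff ℝ m (fun x : ℝ => Polynomial.aeval x P))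

end

theorem ale (hROL : RolStatement) (hHIN : HinStatement) : AleStatement := by
  intro ι _ c w C0 W η h k hh hk hW hη hc hw hz R x hR hx0 hxR
  have hhR : (1 : ℝ) ≤ R := le_trans (by exact_mod_cast hh) hR
  have hR0 : 0 ≤ R := by linarith
  obtain ⟨P, hPdeg, hPd, hPb⟩ := hHIN h k hh hk
    (fun l i => ∑ j, c j * w j ^ i * exp (l * w j)) η hη hz
  obtain ⟨ξ, hξ0, hξR, hξ⟩ := hROL (Fn c w P 0) (contDiff_Fn c w P) h k hh hk
    (by
      intro l i hl1 hl2 hi
      rw [iteratedDeriv_Fn]
      unfold Fn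
      rw [hPd l i hl1 hl2 hi]
      exact sub_self _) R x hR hx0 hxR
  rw [iteratedDeriv_Fn] at hξ
  have hzero : Polynomial.derivative^[h * k] P = 0 :=
    Polynomial.iterate_derivative_eq_zero hPdeg
  have hfact : (0 : ℝ) < ((h * k).factorial : ℝ) := by exact_mod_cast Nat.factorial_pos _
  -- bound of the derivative
  have hD : |Fn c w P (h * k) ξ| ≤ C0 * W ^ (h * k) * exp (W * R) := by
    unfold Fn
    rw [hzero, Polynomial.eval_zero, sub_zero]
    calc |∑ i, c i * w i ^ (h * k) * exp (ξ * w i)|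
        ≤ ∑ i, |c i * w i ^ (h * k) * exp (ξ * w i)| := Finset.abs_sum_le_sum_abs _ _
      _ ≤ ∑ i, |c i| * (W ^ (h * k) * exp (W * R)) := by
          refine Finset.sum_le_sum fun i _ => ?_
          rw [abs_mul, abs_mul, abs_pow, Real.abs_exp, mul_assoc]
          have h1 : |w i| ^ (h * k) ≤ W ^ (h * k) := pow_le_pow_left₀ (abs_nonneg _) (hw i) _
          have h2 : exp (ξ * w i) ≤ exp (W * R) := by
            apply Real.exp_le_exp.mpr
            calc ξ * w i ≤ ξ * |w i| := mul_le_mul_of_nonneg_left (le_abs_self _) hξ0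
              _ ≤ R * W := mul_le_mul hξR (hw i) (abs_nonneg _) hR0
              _ = W * R := mul_comm _ _
          exact mul_le_mul_of_nonneg_left
            (mul_le_mul h1 h2 (Real.exp_pos _).le (pow_nonneg hW _)) (abs_nonneg _)
      _ = (∑ i, |c i|) * (W ^ (h * k) * exp (W * R)) := by rw [Finset.sum_mul]
      _ ≤ C0 * (W ^ (h * k) * exp (W * R)) :=
          mul_le_mul_of_nonneg_right hc (by positivity)
      _ = C0 * W ^ (h * k) * exp (W * R) := by ring
  -- bound of the product
  have hP : |∏ l ∈ Finset.Icc 1 h, (x - (l : ℝ)) ^ k| ≤ R ^ (h * k) := by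
    rw [Finset.abs_prod]
    calc ∏ l ∈ Finset.Icc 1 h, |(x - (l : ℝ)) ^ k| ≤ ∏ _l ∈ Finset.Icc 1 h, R ^ k := by
          refine Finset.prod_le_prod (fun l _ => abs_nonneg _) fun l hl => ?_
          rw [Finset.mem_Icc] at hl
          rw [abs_pow]
          refine pow_le_pow_left₀ (abs_nonneg _) ?_ k
          have h1 : (1 : ℝ) ≤ l := by exact_mod_cast hl.1
          have h2 : (l : ℝ) ≤ h := by exact_mod_cast hl.2
          rw [abs_le]
          constructor <;> linarith
      _ = R ^ (h * k) := by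
          rw [Finset.prod_const, Nat.card_Icc, Nat.add_sub_cancel, ← pow_mul, mul_comm k h]
  have hg : |Fn c w P 0 x| ≤
      C0 * (W * R) ^ (h * k) * exp (W * R) / ((h * k).factorial : ℝ) := by
    rw [le_div_iff₀ hfact]
    have e1 : |Fn c w P 0 x| * ((h * k).factorial : ℝ) =
        |Fn c w P 0 x * ((h * k).factorial : ℝ)| := by
      rw [abs_mul, abs_of_pos hfact]
    rw [e1, hξ, abs_mul]
    calc |Fn c w P (h * k) ξ| * |∏ l ∈ Finset.Icc 1 h, (x - (l : ℝ)) ^ k|
        ≤ (C0 * W ^ (h * k) * exp (W * R)) * R ^ (h * k) :=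
          mul_le_mul hD hP (abs_nonneg _) ((abs_nonneg _).trans hD)
      _ = C0 * (W * R) ^ (h * k) * exp (W * R) := by rw [mul_pow]; ring
  have hf : ∑ i, c i * exp (x * w i) = Fn c w P 0 x + P.eval x := by
    unfold Fn
    simp
  rw [hf]
  exact (abs_add_le _ _).trans (add_le_add hg (hPb R x hR hx0 hxR))

end Pool.Agent.DIO.H67
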